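import Mathlib
import Pool.Agent.TH952.AdelicPt
import Pool.Agent.TH952.Geo

set_option autoImplicit false

/-!
# A variety with the splitting condition and a Brauer–Manin obstruction

The variety is the affine curve `y² = x⁴ + 1`, `x ≠ 0` over `ℚ`.  It has points over `ℝ` and over all
`ℚ_p`, even an adelic point, and `π₁(U, u) → Gal(ℚ̄/ℚ)` splits for all its dense open subsets `U` and all
geometric points `u` of `U` over `ℚ̄` (the sections come from the missing rational point `(0, 1)`), but its
Brauer–Manin set is empty.
-/

namespace Pool.Agent.Results.MP_ad201b_nt.SplittingNoBM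

open Pool.Agent.TH952
open scoped TensorProduct

/-- There is a variety `X = Spec R` over `ℚ`, in fact a smooth and geometrically integral affine curve,
which satisfies the splitting condition and has an adelic point, but whose Brauer–Manin set is empty. -/
theorem result : ∃ (R : Type) (_ : CommRing R) (_ : Algebra ℚ R),
    IsDomain R ∧ Algebra.FiniteType ℚ R ∧
    Algebra.IsStandardSmoothOfRelativeDimension 1 ℚ R ∧
    (∀ (K : Type) [Field K] [Algebra ℚ K], IsDomain (K ⊗[ℚ] R)) ∧
    SplittingCondition (AlgebraicGeometry.Spec (CommRingCat.of R)) ∧
    Nonempty (AdelicPoint R) ∧ BrauerManinSet R = ∅ :=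
  ⟨RR, inferInstance, inferInstance, inferInstance, inferInstance, RR_smooth, RR_geo,
    RR_splitting, exists_adelic, RR_bm⟩

end Pool.Agent.Results.MP_ad201b_nt.SplittingNoBM
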